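import Pool.Agent.Q54.KP.StmA

/-!
# Project KP, job SIG: a dense type `(a, a, σ a)` for every class
-/

set_option autoImplicit false

namespace Pool.Agent.Q298.KP

open Finset Pool.Agent.Q54.KP

/-- triples with the first two vertices in the class `a` -/
theorem triples_ge (c δ : ℝ) (hc : 0 < c) (hδ : 0 < δ) (V : Type) [Fintype V] [DecidableEq V]
    (E : Finset (Finset V)) (hE : Cod E c) (hn : 2 / δ ≤ nn V) (d : ℕ) (cl : V → Fin d)
    (hcl : ∀ j, δ * nn V ≤ cnt (fun v => cl v = j)) (a : Fin d) :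
    c * δ ^ 2 / 2 * nn V ^ 3 ≤
      cnt (fun p : V × V × V => ed E p.1 p.2.1 p.2.2 ∧ cl p.1 = a ∧ cl p.2.1 = a) := by
  classical
  have hn0 : 0 < nn V := lt_of_lt_of_le (by positivity) hn
  have hδn : 2 ≤ δ * nn V := by
    rw [div_le_iff₀ hδ] at hn
    linarith
  set S : Finset V := univ.filter (fun v => cl v = a) with hS
  have hK : δ * nn V ≤ (S.card : ℝ) := by
    have := hcl a
    rw [cnt_eq_card] at this
    exact this
  have h1 : cnt (fun p : V × V × V => ed E p.1 p.2.1 p.2.2 ∧ cl p.1 = a ∧ cl p.2.1 = a) =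
      ∑ x, ∑ y, cnt (fun z => ed E x y z ∧ cl x = a ∧ cl y = a) := by
    rw [cnt_prod (fun (x : V) (q : V × V) => ed E x q.1 q.2 ∧ cl x = a ∧ cl q.1 = a)]
    refine Finset.sum_congr rfl fun x _ => ?_
    rw [cnt_prod (fun (y z : V) => ed E x y z ∧ cl x = a ∧ cl y = a)]
  have h2 : ∑ x ∈ S, ∑ y ∈ S.erase x, c * nn V ≤
      ∑ x, ∑ y, cnt (fun z => ed E x y z ∧ cl x = a ∧ cl y = a) := by
    refine (Finset.sum_le_sum (g := fun x => ∑ y, cnt (fun z => ed E x y z ∧ cl x = a ∧ cl y = a))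
      fun x hx => ?_).trans
      (Finset.sum_le_sum_of_subset_of_nonneg (Finset.subset_univ _)
        fun x _ _ => Finset.sum_nonneg fun y _ => cnt_nonneg _)
    refine (Finset.sum_le_sum (g := fun y => cnt (fun z => ed E x y z ∧ cl x = a ∧ cl y = a))
      fun y hy => ?_).trans
      (Finset.sum_le_sum_of_subset_of_nonneg (Finset.subset_univ _)
        fun y _ _ => cnt_nonneg _)
    rw [Finset.mem_erase] at hy
    have hx' : cl x = a := by simpa [hS] using hx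
    have hy' : cl y = a := by simpa [hS] using hy.2
    refine (hE.2 x y (Ne.symm hy.1)).trans (cnt_mono fun z hz => ⟨hz, hx', hy'⟩)
  have h3 : ∑ x ∈ S, ∑ y ∈ S.erase x, c * nn V = S.card * ((S.card - 1) * (c * nn V)) := by
    have : ∀ x ∈ S, ∑ y ∈ S.erase x, c * nn V = ((S.card : ℝ) - 1) * (c * nn V) := by
      intro x hx
      rw [Finset.sum_const, nsmul_eq_mul, Finset.card_erase_of_mem hx,
        Nat.cast_sub (Finset.card_pos.2 ⟨x, hx⟩)]
      simp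
    rw [Finset.sum_congr rfl this, Finset.sum_const, nsmul_eq_mul]
  rw [h1]
  refine le_trans ?_ h2
  rw [h3]
  set K : ℝ := (S.card : ℝ)
  have hK2 : 2 ≤ K := hδn.trans hK
  have h4 : δ ^ 2 / 2 * nn V ^ 2 ≤ K * (K - 1) := by
    have h5 : (δ * nn V) ^ 2 ≤ K ^ 2 := by
      apply pow_le_pow_left₀ (by positivity) hK
    nlinarith [mul_nonneg (sub_nonneg.2 hK2) (by linarith : (0 : ℝ) ≤ K)]
  calc c * δ ^ 2 / 2 * nn V ^ 3 = (δ ^ 2 / 2 * nn V ^ 2) * (c * nn V) := by ring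
    _ ≤ (K * (K - 1)) * (c * nn V) := mul_le_mul_of_nonneg_right h4 (by positivity)
    _ = K * ((K - 1) * (c * nn V)) := by ring

/-- job SIG -/
theorem sig : S_SIG := by
  classical
  intro c δ q hc hδ
  refine ⟨c * δ ^ 2 / (2 * (q + 1)), by positivity, ⌈2 / δ⌉₊, ?_⟩
  intro V _ _ E hE hn d hd cl hcl
  have hn' : 2 / δ ≤ nn V := by
    refine (Nat.le_ceil _).trans ?_
    unfold nn
    exact_mod_cast hn
  have hn0 : 0 < nn V := lt_of_lt_of_le (by positivity) hn'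
  suffices h : ∀ a, ∃ b, c * δ ^ 2 / (2 * (q + 1)) * nn V ^ 3 ≤
      cnt (fun p : V × V × V => ed E p.1 p.2.1 p.2.2 ∧ cl p.1 = a ∧ cl p.2.1 = a ∧ cl p.2.2 = b) by
    choose σ hσ using h
    exact ⟨σ, hσ⟩
  intro a
  by_contra hcon
  push Not at hcon
  have h1 := triples_ge c δ hc hδ V E hE hn' d cl hcl a
  have h2 : cnt (fun p : V × V × V => ed E p.1 p.2.1 p.2.2 ∧ cl p.1 = a ∧ cl p.2.1 = a) ≤
      cnt (fun r : Fin d × (V × V × V) => ed E r.2.1 r.2.2.1 r.2.2.2 ∧ cl r.2.1 = a ∧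
        cl r.2.2.1 = a ∧ cl r.2.2.2 = r.1) := by
    apply cnt_le_of_inj (fun p => (cl p.2.2, p))
    · intro p p' h
      exact (Prod.ext_iff.1 h).2
    · intro p hp
      exact ⟨hp.1, hp.2.1, hp.2.2, rfl⟩
  rw [cnt_prod (fun (b : Fin d) (p : V × V × V) => ed E p.1 p.2.1 p.2.2 ∧ cl p.1 = a ∧
        cl p.2.1 = a ∧ cl p.2.2 = b)] at h2
  have h3 : ∑ b : Fin d, cnt (fun p : V × V × V => ed E p.1 p.2.1 p.2.2 ∧ cl p.1 = a ∧
        cl p.2.1 = a ∧ cl p.2.2 = b) ≤ ∑ b : Fin d, c * δ ^ 2 / (2 * (q + 1)) * nn V ^ 3 :=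
    Finset.sum_le_sum fun b _ => (hcon b).le
  rw [Finset.sum_const, Finset.card_univ, Fintype.card_fin, nsmul_eq_mul] at h3
  have h4 : c * δ ^ 2 / 2 * nn V ^ 3 ≤ (d : ℝ) * (c * δ ^ 2 / (2 * (q + 1)) * nn V ^ 3) :=
    h1.trans (h2.trans h3)
  have h5 : (d : ℝ) ≤ q := by exact_mod_cast hd
  have h6 : (d : ℝ) * (c * δ ^ 2 / (2 * (q + 1)) * nn V ^ 3) ≤
      (q : ℝ) * (c * δ ^ 2 / (2 * (q + 1)) * nn V ^ 3) :=
    mul_le_mul_of_nonneg_right h5 (by positivity)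
  have h7 : (q : ℝ) * (c * δ ^ 2 / (2 * (q + 1)) * nn V ^ 3) < c * δ ^ 2 / 2 * nn V ^ 3 := by
    have h8 : c * δ ^ 2 / 2 * nn V ^ 3 = ((q : ℝ) + 1) * (c * δ ^ 2 / (2 * (q + 1)) * nn V ^ 3) := by
      field_simp
    rw [h8]
    have : 0 < c * δ ^ 2 / (2 * ((q : ℝ) + 1)) * nn V ^ 3 := by positivity
    nlinarith
  linarith

end Pool.Agent.Q298.KP
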